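import Pool.Agent.Lib_MP_f1a94e_t1.Core
import Pool.Agent.Lib_MP_f1a94e_q.LineCert
import Pool.Agent.Lib_MP_f1a94e_mr.StepB

/-!
# MP_f1a94e_nt: `Ω(m ^ 2 + 1)` modulo `q`, counting theorem
-/

set_option autoImplicit false

namespace Pool.Agent.OmT1

open Finset ArithmeticFunction Pool.Agent.OmAP Filter

/-- counting theorem for a certificate -/
theorem count {q : ℕ} {A : Set (ZMod q)} {Q : ℕ} (hQ : 0 < Q) (h : CertA q A Q) (e : ℝ)
    (he : Real.log 2 < e) : ∃ x0 : ℝ, ∀ x : ℝ, x0 ≤ x →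
      x / Real.log x ^ e ≤ (Set.ncard {m : ℕ | (m : ℝ) ≤ x ∧ Even m ∧ (m ^ 2 + 1).Coprime Q ∧
        ((cardFactors (m ^ 2 + 1) : ℕ) : ZMod q) ∈ A} : ℝ) := by
  classical
  obtain ⟨c, x1, hc, hx1, hcore⟩ := core hQ h
  obtain ⟨d, C, hd, hC, hstep⟩ := Pool.Agent.GaussMR.stepB e he
  have hlim : Tendsto (fun x : ℝ => Real.log x ^ d) atTop atTop :=
    (tendsto_rpow_atTop hd).comp Real.tendsto_log_atTop
  obtain ⟨x2, hx2⟩ := eventually_atTop.mp (hlim.eventually_gt_atTop (C / c))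
  refine ⟨max x1 (max x2 3), ?_⟩
  intro x hx
  have hxx1 : x1 ≤ x := (le_max_left _ _).trans hx
  have hxx2 : x2 ≤ x := ((le_max_left _ _).trans (le_max_right _ _)).trans hx
  have hxx3 : 3 ≤ x := ((le_max_right _ _).trans (le_max_right _ _)).trans hx
  by_contra hcon
  push Not at hcon
  set S : Set ℕ := {m : ℕ | (m : ℝ) ≤ x ∧ Even m ∧ (m ^ 2 + 1).Coprime Q ∧
        ((cardFactors (m ^ 2 + 1) : ℕ) : ZMod q) ∈ A} with hS
  have hfin : S.Finite := by
    apply (Set.finite_Iic ⌊x⌋₊).subset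
    intro m hm
    exact Nat.le_floor hm.1
  set B : Finset ℕ := hfin.toFinset with hB
  have hBm : ∀ m, m ∈ B ↔ m ∈ S := fun m => Set.Finite.mem_toFinset hfin
  have hBc : (B.card : ℝ) ≤ x / Real.log x ^ e := by
    rw [hB, ← Set.ncard_eq_toFinset_card S hfin]
    exact hcon.le
  have h1 := hstep x hxx3 B (fun m hm => ⟨((hBm m).mp hm).2.1, ((hBm m).mp hm).1⟩) hBc
  have h2 := hcore x hxx1 B (fun m h1 h2 h3 h4 => (hBm m).mpr ⟨h2, h1, h3, h4⟩)
  have h3 : c * x ≤ C * x / Real.log x ^ d := h2.trans h1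
  have h4 := hx2 x hxx2
  have hlog : 0 < Real.log x := Real.log_pos (by linarith)
  have h5 : 0 < Real.log x ^ d := Real.rpow_pos_of_pos hlog d
  rw [le_div_iff₀ h5] at h3
  have h6 : C < c * Real.log x ^ d := by
    rw [div_lt_iff₀ hc] at h4
    linarith
  have h7 : 0 < x := by linarith
  nlinarith

/-- the certificates given by `lineCert` -/
theorem certA (q : ℕ) (hq : 0 < q) (a b : ℤ) (hab : Odd q ∨ Odd (a + b)) (P : ℕ) :
    CertA q ({(a : ZMod q), (b : ZMod q)} : Set (ZMod q)) P.factorial := by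
  apply CertA.of_line
  obtain ⟨N, hN⟩ := Pool.Agent.OmQ.lineCert q hq a b hab P
  refine ⟨N, fun X => ?_⟩
  obtain ⟨i, k, h1, h2, -, h3, h4, h5, h6⟩ := hN X
  refine ⟨i, k, h1, h2, h3, h4, h5, ?_⟩
  rcases h6 with h6 | h6
  · left; rw [h6]; ring
  · right; rw [h6]; simp

end Pool.Agent.OmT1
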