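import Pool.Agent.Lib_MP_f1a94e_ap.CertA
import Pool.Agent.Lib_MP_f1a94e_ap.Basis
import Pool.Agent.Lib_MP_f1a94e_ap.CountPrim
import Pool.Agent.Lib_MP_f1a94e_ap.Mult
import Pool.Agent.Lib_MP_f1a94e_mr.Defs

/-!
# MP_f1a94e_nt: from a certificate to many `m`

A positive proportion of the primitive vectors `z` in a box of side `√x` gives a factorisation of some
`m ^ 2 + 1`, `m ≤ x`, with `Ω(m ^ 2 + 1)` in the required classes, into two factors at most `x`; each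
factorisation is obtained boundedly often.
-/

set_option autoImplicit false

namespace Pool.Agent.OmT1

open Finset ArithmeticFunction Pool.Agent.OmAP

/-- the divisors counted by `tx` -/
noncomputable def TS (x : ℝ) (m : ℕ) : Finset ℕ :=
  ((m ^ 2 + 1).divisors).filter (fun d => (d : ℝ) ≤ x ∧ ((m ^ 2 + 1 : ℕ) : ℝ) ≤ x * d)

theorem tx_eq (x : ℝ) (m : ℕ) : Pool.Agent.GaussMR.tx x m = (TS x m).card := by
  unfold Pool.Agent.GaussMR.tx
  rw [← Set.ncard_coe_finset]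
  congr 1
  ext d
  simp only [TS, Set.mem_setOf_eq, coe_filter, Nat.mem_divisors]
  constructor
  · rintro ⟨h1, h2, h3⟩
    exact ⟨⟨h1, by positivity⟩, h2, h3⟩
  · rintro ⟨⟨h1, -⟩, h2, h3⟩
    exact ⟨h1, h2, h3⟩

/-- the two relations between adjacent vectors -/
theorem vec_rel1 (U V : ℤ × ℤ) (D n : ℤ) (h1 : dt U V = D) (h2 : dp U V = D * n) :
    D * (n * U.1 - U.2) = nm U * V.1 := by
  simp only [dt, dp, nm] at *
  linear_combination (-U.1) * h2 + U.2 * h1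

theorem vec_rel2 (U V : ℤ × ℤ) (D n : ℤ) (h1 : dt U V = D) (h2 : dp U V = D * n) :
    D * (n * U.2 + U.1) = nm U * V.2 := by
  simp only [dt, dp, nm] at *
  linear_combination (-U.2) * h2 - U.1 * h1

/-- the divisor of `n ^ 2 + 1` attached to a pair -/
theorem div_spec (a b D N : ℕ) (hD : D ≠ 0) (h : a * b = D * N) (ha : a ≠ 0) :
    a / a.gcd D ∣ N ∧ N ≤ (a / a.gcd D) * b ∧ a / a.gcd D ≤ a ∧ a.gcd D ∣ D ∧
      (a / a.gcd D) * a.gcd D = a := by
  have hg : 0 < a.gcd D := Nat.gcd_pos_of_pos_right _ (Nat.pos_of_ne_zero hD)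
  have h1 : (a / a.gcd D) * a.gcd D = a := Nat.div_mul_cancel (Nat.gcd_dvd_left _ _)
  have h2 : (D / a.gcd D) * a.gcd D = D := Nat.div_mul_cancel (Nat.gcd_dvd_right _ _)
  have h3 : (a / a.gcd D) * b = (D / a.gcd D) * N := by
    have : a.gcd D * ((a / a.gcd D) * b) = a.gcd D * ((D / a.gcd D) * N) := by
      calc a.gcd D * ((a / a.gcd D) * b) = ((a / a.gcd D) * a.gcd D) * b := by ring
        _ = D * N := by rw [h1, h]
        _ = ((D / a.gcd D) * a.gcd D) * N := by rw [h2]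
        _ = _ := by ring
    exact Nat.eq_of_mul_eq_mul_left hg this
  have hcop : Nat.Coprime (a / a.gcd D) (D / a.gcd D) := Nat.coprime_div_gcd_div_gcd hg
  refine ⟨?_, ?_, Nat.div_le_self _ _, Nat.gcd_dvd_right _ _, h1⟩
  · exact hcop.dvd_of_dvd_mul_left (h3 ▸ Dvd.intro _ rfl)
  · rw [h3]
    have h4 : 0 < D / a.gcd D := Nat.div_pos (Nat.le_of_dvd (Nat.pos_of_ne_zero hD)
      (Nat.gcd_dvd_right _ _)) hg
    exact Nat.le_mul_of_pos_left _ h4

/-- counting lemma for one pair `(u, v)` -/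
theorem pair_count (D : ℤ) (hD : D ≠ 0) (u v : ℤ × ℤ) (huv : dt u v = D) (S : Finset (ℤ × ℤ))
    (W : ℤ × ℤ → ℤ × ℤ) (n : ℤ × ℤ → ℤ) (x : ℝ) (B : Finset ℕ)
    (hdet : ∀ z ∈ S, dt z (W z) = 1)
    (hn : ∀ z ∈ S, dp (lin u z (W z)) (lin v z (W z)) = D * n z)
    (hU : ∀ z ∈ S, (nm (lin u z (W z)) : ℝ) ≤ x) (hV : ∀ z ∈ S, (nm (lin v z (W z)) : ℝ) ≤ x)
    (hB : ∀ z ∈ S, (n z).natAbs ∈ B) :
    S.card ≤ (4 * D.natAbs + 1) ^ 2 * ((∑ m ∈ B, (TS x m).card) * ((D ^ 2).natAbs.divisors.card * 2)) := by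
  classical
  set Un : ℤ × ℤ → ℕ := fun z => (nm (lin u z (W z))).natAbs with hUn
  set Dn : ℕ := (D ^ 2).natAbs with hDn
  have hDn0 : Dn ≠ 0 := Int.natAbs_ne_zero.mpr (pow_ne_zero 2 hD)
  have hdtUV : ∀ z ∈ S, dt (lin u z (W z)) (lin v z (W z)) = D := by
    intro z hz
    rw [dt_lin, huv, hdet z hz, mul_one]
  have hprod : ∀ z ∈ S, nm (lin u z (W z)) * nm (lin v z (W z)) = D ^ 2 * ((n z) ^ 2 + 1) := by
    intro z hz
    rw [← dp_sq_add_dt_sq, hdtUV z hz, hn z hz]; ring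
  have hUpos : ∀ z ∈ S, 0 < nm (lin u z (W z)) := by
    intro z hz
    have h1 := hprod z hz
    have h2 : nm (lin u z (W z)) ≠ 0 := by
      intro h; rw [h, zero_mul] at h1
      have : D ^ 2 * ((n z) ^ 2 + 1) ≠ 0 := mul_ne_zero (pow_ne_zero 2 hD) (by positivity)
      exact this h1.symm
    have h3 : 0 ≤ nm (lin u z (W z)) := by unfold nm; positivity
    omega
  have hVpos : ∀ z ∈ S, 0 < nm (lin v z (W z)) := by
    intro z hz
    have h1 := hprod z hz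
    have h2 : nm (lin v z (W z)) ≠ 0 := by
      intro h; rw [h, mul_zero] at h1
      have : D ^ 2 * ((n z) ^ 2 + 1) ≠ 0 := mul_ne_zero (pow_ne_zero 2 hD) (by positivity)
      exact this h1.symm
    have h3 : 0 ≤ nm (lin v z (W z)) := by unfold nm; positivity
    omega
  have hprodN : ∀ z ∈ S, Un z * (nm (lin v z (W z))).natAbs = Dn * ((n z).natAbs ^ 2 + 1) := by
    intro z hz
    have h1 := hprod z hz
    have h2 : ((Un z * (nm (lin v z (W z))).natAbs : ℕ) : ℤ) = ((Dn * ((n z).natAbs ^ 2 + 1) : ℕ) : ℤ) := by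
      simp only [hUn, hDn]
      push_cast
      rw [abs_of_pos (hUpos z hz), abs_of_pos (hVpos z hz), abs_of_nonneg (sq_nonneg D), sq_abs]
      exact h1
    exact_mod_cast h2
  set f : ℤ × ℤ → (Σ _ : ℕ, ℕ) × ℕ × Bool := fun z =>
    (⟨(n z).natAbs, Un z / (Un z).gcd Dn⟩, (Un z).gcd Dn, decide (0 ≤ n z)) with hf
  set T : Finset ((Σ _ : ℕ, ℕ) × ℕ × Bool) := (B.sigma (fun m => TS x m)) ×ˢ (Dn.divisors ×ˢ univ) with hT
  have hTc : T.card = (∑ m ∈ B, (TS x m).card) * (Dn.divisors.card * 2) := by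
    rw [hT, card_product, card_product, card_sigma, card_univ, Fintype.card_bool]
  rw [← hTc]
  have hmaps : ∀ z ∈ S, f z ∈ T := by
    intro z hz
    have hUn0 : Un z ≠ 0 := by
      simp only [hUn]; exact Int.natAbs_ne_zero.mpr (hUpos z hz).ne'
    obtain ⟨h1, h2, h3, h4, h5⟩ := div_spec (Un z) _ Dn _ hDn0 (hprodN z hz) hUn0
    have hUx : ((Un z : ℕ) : ℝ) ≤ x := by
      have := hU z hz
      have h6 : ((Un z : ℕ) : ℝ) = (nm (lin u z (W z)) : ℝ) := by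
        simp only [hUn]
        rw [Nat.cast_natAbs, abs_of_pos (hUpos z hz)]
      rw [h6]; exact this
    have hVx : (((nm (lin v z (W z))).natAbs : ℕ) : ℝ) ≤ x := by
      rw [Nat.cast_natAbs, abs_of_pos (hVpos z hz)]
      exact hV z hz
    simp only [hT, hf, mem_product, mem_sigma, mem_univ, and_true, Nat.mem_divisors, TS, mem_filter]
    refine ⟨⟨hB z hz, ⟨h1, by positivity⟩, ?_, ?_⟩, h4, hDn0⟩
    · exact le_trans (by exact_mod_cast h3) hUx
    · calc (((n z).natAbs ^ 2 + 1 : ℕ) : ℝ) ≤ ((Un z / (Un z).gcd Dn * (nm (lin v z (W z))).natAbs : ℕ) : ℝ) := by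
            exact_mod_cast h2
        _ = ((Un z / (Un z).gcd Dn : ℕ) : ℝ) * ((nm (lin v z (W z))).natAbs : ℝ) := by push_cast; ring
        _ ≤ ((Un z / (Un z).gcd Dn : ℕ) : ℝ) * x := by gcongr
        _ = _ := by ring
  refine card_le_mul_card_image_of_maps_to hmaps _ ?_
  intro t _
  rcases (S.filter (fun z => f z = t)).eq_empty_or_nonempty with h | ⟨z₀, h₀⟩
  · rw [h]; simp
  obtain ⟨hz₀, hfz₀⟩ := mem_filter.mp h₀
  -- the common values
  have hcom : ∀ z ∈ S.filter (fun z => f z = t), n z = n z₀ ∧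
      nm (lin u z (W z)) = nm (lin u z₀ (W z₀)) := by
    intro z hz
    obtain ⟨hzS, hfz⟩ := mem_filter.mp hz
    have h1 : f z = f z₀ := by rw [hfz, hfz₀]
    simp only [hf, Prod.mk.injEq, Sigma.mk.injEq, heq_eq_eq, decide_eq_decide] at h1
    obtain ⟨⟨e1, e2⟩, e3, e4⟩ := h1
    refine ⟨by omega, ?_⟩
    have h5 : Un z = Un z₀ := by
      have h6 : (Un z / (Un z).gcd Dn) * (Un z).gcd Dn = Un z := Nat.div_mul_cancel (Nat.gcd_dvd_left _ _)
      have h7 : (Un z₀ / (Un z₀).gcd Dn) * (Un z₀).gcd Dn = Un z₀ :=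
        Nat.div_mul_cancel (Nat.gcd_dvd_left _ _)
      rw [← h6, ← h7, e2, e3]
    simp only [hUn] at h5
    have h8 := hUpos z hzS
    have h9 := hUpos z₀ hz₀
    omega
  have hinj : Set.InjOn (fun z => lin u z (W z)) (S.filter (fun z => f z = t) : Finset (ℤ × ℤ)) := by
    intro z hz z' hz' hzz
    simp only [mem_coe] at hz hz'
    obtain ⟨e1, e2⟩ := hcom z hz
    obtain ⟨e1', e2'⟩ := hcom z' hz'
    have hzS := (mem_filter.mp hz).1
    have hzS' := (mem_filter.mp hz').1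
    have hUU : lin u z (W z) = lin u z' (W z') := hzz
    have hVV : lin v z (W z) = lin v z' (W z') := by
      have r1 := vec_rel1 _ _ D (n z) (hdtUV z hzS) (hn z hzS)
      have r2 := vec_rel2 _ _ D (n z) (hdtUV z hzS) (hn z hzS)
      have r1' := vec_rel1 _ _ D (n z') (hdtUV z' hzS') (hn z' hzS')
      have r2' := vec_rel2 _ _ D (n z') (hdtUV z' hzS') (hn z' hzS')
      rw [← hUU, e1', ← e1] at r1' r2'
      rw [r1'] at r1
      rw [r2'] at r2
      have hp := (hUpos z hzS).ne'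
      exact Prod.ext (mul_left_cancel₀ hp r1).symm (mul_left_cancel₀ hp r2).symm
    have hz1 : ∀ y : ℤ × ℤ, (v.2 * (lin u y (W y)).1 - u.2 * (lin v y (W y)).1 = D * y.1) ∧
        (v.2 * (lin u y (W y)).2 - u.2 * (lin v y (W y)).2 = D * y.2) := by
      intro y
      rw [← huv]
      simp only [lin, dt]
      constructor <;> ring
    have a1 := (hz1 z).1
    have a2 := (hz1 z).2
    rw [hUU, hVV] at a1 a2
    rw [(hz1 z').1] at a1
    rw [(hz1 z').2] at a2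
    exact Prod.ext (mul_left_cancel₀ hD a1).symm (mul_left_cancel₀ hD a2).symm
  rw [← card_image_of_injOn hinj]
  refine mult_fiber_bound D (n z₀) (nm (lin u z₀ (W z₀))) hD (hUpos z₀ hz₀) _ ?_
  intro U hU'
  obtain ⟨z, hz, rfl⟩ := mem_image.mp hU'
  obtain ⟨e1, e2⟩ := hcom z hz
  have hzS := (mem_filter.mp hz).1
  rw [← e1, ← e2]
  exact ⟨rfl, ⟨_, vec_rel1 _ _ D (n z) (hdtUV z hzS) (hn z hzS)⟩,
    ⟨_, vec_rel2 _ _ D (n z) (hdtUV z hzS) (hn z hzS)⟩⟩

theorem nm_nonneg (u : ℤ × ℤ) : 0 ≤ nm u := by unfold nm; positivity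

/-- size of a transported vector -/
theorem nm_lin_le (u z w : ℤ × ℤ) : nm (lin u z w) ≤ 2 * nm u * (nm z + nm w) := by
  have h1 : nm (lin u z w) ≤ 2 * (u.1 ^ 2 * nm z + u.2 ^ 2 * nm w) := by
    simp only [nm, lin]
    nlinarith [sq_nonneg (u.1 * z.1 - u.2 * w.1), sq_nonneg (u.1 * z.2 - u.2 * w.2)]
  have h2 := nm_nonneg z
  have h3 := nm_nonneg w
  have h4 : nm u = u.1 ^ 2 + u.2 ^ 2 := rfl
  nlinarith [sq_nonneg u.1, sq_nonneg u.2, mul_nonneg (sq_nonneg u.1) h3, mul_nonneg (sq_nonneg u.2) h2]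

open Classical in
/-- the modulus -/
noncomputable def modL (V : Finset (ℤ × ℤ)) (Q : ℕ) : ℕ :=
  6 * Q * ∏ p ∈ V ×ˢ V, (if dt p.1 p.2 = 0 then 1 else (dt p.1 p.2).natAbs)

theorem modL_pos (V : Finset (ℤ × ℤ)) (Q : ℕ) (hQ : 0 < Q) : 0 < modL V Q := by
  unfold modL
  refine Nat.mul_pos (by omega) (Finset.prod_pos ?_)
  intro p _
  split
  · norm_num
  · rename_i h; exact Int.natAbs_pos.mpr h

theorem dt_dvd_modL (V : Finset (ℤ × ℤ)) (Q : ℕ) (u v : ℤ × ℤ) (hu : u ∈ V) (hv : v ∈ V)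
    (h : dt u v ≠ 0) : dt u v ∣ (modL V Q : ℤ) := by
  have h1 : (dt u v).natAbs ∣ modL V Q := by
    unfold modL
    refine Dvd.dvd.mul_left ?_ _
    have := Finset.dvd_prod_of_mem (fun p : (ℤ × ℤ) × (ℤ × ℤ) =>
      if dt p.1 p.2 = 0 then 1 else (dt p.1 p.2).natAbs) (mem_product.mpr ⟨hu, hv⟩ : (u, v) ∈ V ×ˢ V)
    simpa [h] using this
  exact Int.natAbs_dvd.mp (by exact_mod_cast h1)

theorem coprime_of_cong (L Q : ℕ) (hQL : Q ∣ L) (a b : ℤ) (h : (L : ℤ) ∣ a - b)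
    (hb : b.natAbs.Coprime Q) : a.natAbs.Coprime Q := by
  have h1 : (Q : ℤ) ∣ a - b := (Int.natCast_dvd_natCast.mpr hQL).trans h
  have h2 : IsCoprime b (Q : ℤ) := by
    rw [Int.isCoprime_iff_gcd_eq_one]
    simpa [Int.gcd, Nat.Coprime] using hb
  obtain ⟨c, hc⟩ := h1
  have h3 : IsCoprime a (Q : ℤ) := by
    have : a = b + Q * c := by linear_combination hc
    rw [this]
    exact h2.add_mul_left_left c
  rw [Int.isCoprime_iff_gcd_eq_one] at h3
  simpa [Int.gcd, Nat.Coprime] using h3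

/-- the core statement: a positive proportion of factorisations -/
theorem core {q : ℕ} {A : Set (ZMod q)} {Q : ℕ} (hQ : 0 < Q) (h : CertA q A Q) :
    ∃ c x0 : ℝ, 0 < c ∧ 0 < x0 ∧ ∀ x : ℝ, x0 ≤ x → ∀ B : Finset ℕ,
      (∀ m : ℕ, Even m → (m : ℝ) ≤ x → (m ^ 2 + 1).Coprime Q →
        ((cardFactors (m ^ 2 + 1) : ℕ) : ZMod q) ∈ A → m ∈ B) →
      c * x ≤ ∑ m ∈ B, (Pool.Agent.GaussMR.tx x m : ℝ) := by
  classical
  obtain ⟨V, hV⟩ := h
  obtain ⟨L, hL⟩ : ∃ L : ℕ, L = modL V Q := ⟨_, rfl⟩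
  have hLpos : 0 < L := hL ▸ modL_pos V Q hQ
  have hL6 : 6 * Q ∣ L := by rw [hL]; unfold modL; exact Dvd.intro _ rfl
  have hL2 : 2 ∣ L := (Dvd.intro (3 * Q) (by ring)).trans hL6
  have hL3 : 3 ∣ L := (Dvd.intro (2 * Q) (by ring)).trans hL6
  have hLQ : Q ∣ L := (Dvd.intro_left 6 rfl).trans hL6
  -- constants
  obtain ⟨S0, hS0⟩ : ∃ S0 : ℕ, S0 = ∑ u ∈ V, (nm u).natAbs := ⟨_, rfl⟩
  have hS0u : ∀ u ∈ V, nm u ≤ S0 := by
    intro u hu
    have h1 : (nm u).natAbs ≤ S0 := by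
      rw [hS0]
      exact Finset.single_le_sum (f := fun u => (nm u).natAbs) (fun _ _ => Nat.zero_le _) hu
    have h2 := nm_nonneg u
    omega
  obtain ⟨M, hM⟩ : ∃ M : ℕ, M = 2 * (S0 + 1) * ((L ^ 2 + 2) * (2 * (1 + L) ^ 2)) := ⟨_, rfl⟩
  have hMpos : 0 < M := by rw [hM]; positivity
  obtain ⟨K, hK⟩ : ∃ K : ℕ, K = ∑ p ∈ V ×ˢ V, (4 * (dt p.1 p.2).natAbs + 1) ^ 2 *
    ((dt p.1 p.2 ^ 2).natAbs.divisors.card * 2) := ⟨_, rfl⟩
  refine ⟨1 / (8 * M * (K + 1)), 4 * M, by positivity, by positivity, ?_⟩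
  intro x hx B hB
  have hM' : (0 : ℝ) < M := by exact_mod_cast hMpos
  have hx0 : 0 < x := by linarith
  -- the size of the box
  obtain ⟨N, hN⟩ : ∃ N : ℕ, N = ⌊Real.sqrt (x / M)⌋₊ := ⟨_, rfl⟩
  have hNle : (N : ℝ) ^ 2 ≤ x / M := by
    have h1 : (N : ℝ) ≤ Real.sqrt (x / M) := hN ▸ Nat.floor_le (Real.sqrt_nonneg _)
    calc (N : ℝ) ^ 2 ≤ (Real.sqrt (x / M)) ^ 2 := by gcongr
      _ = x / M := Real.sq_sqrt (by positivity)
  have hNge : x / M ≤ 4 * (N : ℝ) ^ 2 := by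
    have h1 : Real.sqrt (x / M) < N + 1 := hN ▸ Nat.lt_floor_add_one _
    have h2 : (2 : ℝ) ≤ Real.sqrt (x / M) := by
      apply Real.le_sqrt_of_sq_le
      rw [le_div_iff₀ hM']; linarith
    have h3 : Real.sqrt (x / M) ≤ 2 * N := by linarith
    have h4 : x / M = (Real.sqrt (x / M)) ^ 2 := (Real.sq_sqrt (by positivity)).symm
    rw [h4]
    nlinarith
  have hN1 : 1 ≤ N := by
    have h2 : (2 : ℝ) ≤ Real.sqrt (x / M) := by
      apply Real.le_sqrt_of_sq_le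
      rw [le_div_iff₀ hM']; linarith
    rw [hN, Nat.one_le_floor_iff]
    linarith
  -- the vectors
  obtain ⟨P, hP⟩ : ∃ P : Finset (ℕ × ℕ), P = (Icc 1 N ×ˢ Icc 1 N).filter
    fun t : ℕ × ℕ => Nat.Coprime (1 + L * t.1) (L * t.2) := ⟨_, rfl⟩
  have hPc : (N : ℝ) ^ 2 / 2 ≤ P.card := hP ▸ count_prim L N hL2 hL3
  obtain ⟨Z, hZ⟩ : ∃ Z : Finset (ℤ × ℤ), Z = P.image fun t => (((1 + L * t.1 : ℕ) : ℤ), ((L * t.2 : ℕ) : ℤ)) :=
    ⟨_, rfl⟩
  have hZc : Z.card = P.card := by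
    rw [hZ]
    apply card_image_of_injective
    intro s t hst
    simp only [Prod.mk.injEq, Nat.cast_inj] at hst
    obtain ⟨e1, e2⟩ := hst
    have e1' : L * s.1 = L * t.1 := by omega
    exact Prod.ext (Nat.eq_of_mul_eq_mul_left hLpos e1') (Nat.eq_of_mul_eq_mul_left hLpos e2)
  have hZp : ∀ z ∈ Z, IsCoprime z.1 z.2 ∧ (L : ℤ) ∣ z.1 - 1 ∧ (L : ℤ) ∣ z.2 ∧
      nm z ≤ 2 * (1 + L) ^ 2 * N ^ 2 := by
    intro z hz
    rw [hZ] at hz
    obtain ⟨t, ht, rfl⟩ := mem_image.mp hz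
    rw [hP, mem_filter, mem_product, mem_Icc, mem_Icc] at ht
    obtain ⟨⟨⟨t1, t2⟩, t3, t4⟩, hc⟩ := ht
    refine ⟨Nat.isCoprime_iff_coprime.mpr hc, ⟨t.1, by push_cast; ring⟩, ⟨t.2, by push_cast; ring⟩, ?_⟩
    simp only [nm]
    have e1 : ((1 + L * t.1 : ℕ) : ℤ) ≤ (1 + L) * N := by
      have : 1 + L * t.1 ≤ (1 + L) * N := by nlinarith
      exact_mod_cast this
    have e2 : ((L * t.2 : ℕ) : ℤ) ≤ (1 + L) * N := by
      have : L * t.2 ≤ (1 + L) * N := by nlinarith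
      exact_mod_cast this
    have e3 : (0 : ℤ) ≤ ((1 + L * t.1 : ℕ) : ℤ) := Int.natCast_nonneg _
    have e4 : (0 : ℤ) ≤ ((L * t.2 : ℕ) : ℤ) := Int.natCast_nonneg _
    have e5 := pow_le_pow_left₀ e3 e1 2
    have e6 := pow_le_pow_left₀ e4 e2 2
    calc _ ≤ ((1 + (L : ℤ)) * N) ^ 2 + ((1 + (L : ℤ)) * N) ^ 2 := add_le_add e5 e6
      _ = _ := by ring
  -- the choice functions
  have hex : ∀ z ∈ Z, ∃ (w u v : ℤ × ℤ) (n : ℤ), dt z w = 1 ∧ u ∈ V ∧ v ∈ V ∧ dt u v ≠ 0 ∧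
      dp (lin u z w) (lin v z w) = dt u v * n ∧ (nm (lin u z w) : ℝ) ≤ x ∧
      (nm (lin v z w) : ℝ) ≤ x ∧ n.natAbs ∈ B := by
    intro z hz
    obtain ⟨hz0, hz1, hz2, hz3⟩ := hZp z hz
    obtain ⟨w, hw0, hw1, hw2, hw3⟩ := exists_basis L hLpos z hz0 hz1 hz2
    obtain ⟨u, hu, v, hv, n, hD, -, hn, hev, hA, -, -, hprod, -⟩ := transferA hV (L : ℤ)
      (by exact_mod_cast hL2) (fun u hu v hv h => hL ▸ dt_dvd_modL V Q u v hu hv h) z w hw0 hz1 hz2 hw1 hw2
    have hnz1 : 1 ≤ nm z := by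
      have h0 := nm_nonneg z
      have h1 : nm z ≠ 0 := by
        intro h1
        simp only [nm] at h1
        have e1 : z.1 = 0 := by nlinarith [sq_nonneg z.1, sq_nonneg z.2]
        have e2 : z.2 = 0 := by nlinarith [sq_nonneg z.1, sq_nonneg z.2]
        simp only [dt, e1, e2] at hw0
        simp at hw0
      omega
    have hsize : ∀ t ∈ V, (nm (lin t z w) : ℝ) ≤ x := by
      intro t ht
      have e1 : nm (lin t z w) ≤ 2 * nm t * (nm z + nm w) := nm_lin_le t z w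
      have e2 : nm z + nm w ≤ (L ^ 2 + 2) * (2 * (1 + L) ^ 2 * N ^ 2) := by
        calc nm z + nm w ≤ nm z + ((L : ℤ) ^ 2 * nm z + 1) := by gcongr
          _ ≤ ((L : ℤ) ^ 2 + 2) * nm z := by linarith
          _ ≤ _ := by gcongr
      have e3 : nm (lin t z w) ≤ 2 * ((S0 : ℤ) + 1) * ((L ^ 2 + 2) * (2 * (1 + L) ^ 2 * N ^ 2)) := by
        refine e1.trans ?_
        have e4 : nm t ≤ (S0 : ℤ) + 1 := (hS0u t ht).trans (by linarith)
        have e5 := nm_nonneg t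
        have e6 := nm_nonneg z
        have e7 := nm_nonneg w
        gcongr
      have e4 : (nm (lin t z w) : ℝ) ≤ M * (N : ℝ) ^ 2 := by
        have e5 : (nm (lin t z w)) ≤ ((M * N ^ 2 : ℕ) : ℤ) := by
          refine e3.trans (le_of_eq ?_)
          rw [hM]; push_cast; ring
        have e6 : ((nm (lin t z w) : ℤ) : ℝ) ≤ (((M * N ^ 2 : ℕ) : ℤ) : ℝ) := by exact_mod_cast e5
        refine e6.trans (le_of_eq ?_)
        push_cast; ring
      refine e4.trans ?_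
      rw [le_div_iff₀ hM'] at hNle
      linarith
    refine ⟨w, u, v, n, hw0, hu, hv, hD, hn, hsize u hu, hsize v hv, ?_⟩
    apply hB
    · exact Int.natAbs_even.mpr hev
    · -- size
      have e1 : (n : ℝ) ^ 2 ≤ x ^ 2 := by
        have e2 : (dt u v) ^ 2 * (n ^ 2 + 1) = nm (lin u z w) * nm (lin v z w) := hprod.symm
        have e3 : n ^ 2 ≤ nm (lin u z w) * nm (lin v z w) := by
          rw [← e2]
          have e4 : 1 ≤ (dt u v) ^ 2 := by
            have : 0 < (dt u v) ^ 2 := by positivity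
            omega
          nlinarith [sq_nonneg n]
        have e5 : ((n ^ 2 : ℤ) : ℝ) ≤ ((nm (lin u z w) * nm (lin v z w) : ℤ) : ℝ) := by
          exact_mod_cast e3
        push_cast at e5
        have e6 : (0 : ℝ) ≤ (nm (lin u z w) : ℝ) := by exact_mod_cast nm_nonneg _
        have e7 : (0 : ℝ) ≤ (nm (lin v z w) : ℝ) := by exact_mod_cast nm_nonneg _
        calc (n : ℝ) ^ 2 ≤ (nm (lin u z w) : ℝ) * (nm (lin v z w) : ℝ) := e5
          _ ≤ x * x := by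
            gcongr
            · exact hsize u hu
            · exact hsize v hv
          _ = x ^ 2 := by ring
      have e2 : |(n : ℝ)| ≤ x := abs_le_of_sq_le_sq e1 hx0.le
      rw [Nat.cast_natAbs, Int.cast_abs]
      exact e2
    · -- coprime
      have e1 : (nm (lin u z w)).natAbs.Coprime Q := coprime_of_cong L Q hLQ _ _
        (nm_lin_sub L u z w hz1 hz2 hw1 hw2) (hV.1 u hu).2.2
      have e2 : (nm (lin v z w)).natAbs.Coprime Q := coprime_of_cong L Q hLQ _ _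
        (nm_lin_sub L v z w hz1 hz2 hw1 hw2) (hV.1 v hv).2.2
      have e3 : ((nm (lin u z w)) * (nm (lin v z w))).natAbs.Coprime Q := by
        rw [Int.natAbs_mul]; exact e1.mul_left e2
      rw [hprod, Int.natAbs_mul] at e3
      have e4 : (n ^ 2 + 1).natAbs = n.natAbs ^ 2 + 1 := by
        have : ((n ^ 2 + 1).natAbs : ℤ) = ((n.natAbs ^ 2 + 1 : ℕ) : ℤ) := by
          push_cast
          rw [sq_abs, abs_of_nonneg (by positivity)]
        exact_mod_cast this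
      rw [← e4]
      exact Nat.Coprime.coprime_mul_left e3
    · have e4 : (n ^ 2 + 1).natAbs = n.natAbs ^ 2 + 1 := by
        have : ((n ^ 2 + 1).natAbs : ℤ) = ((n.natAbs ^ 2 + 1 : ℕ) : ℤ) := by
          push_cast
          rw [sq_abs, abs_of_nonneg (by positivity)]
        exact_mod_cast this
      simp only [om] at hA
      rw [e4] at hA
      exact hA
  choose! W u v n hW using hex
  -- split according to the pair
  have hmapsuv : ∀ z ∈ Z, (u z, v z) ∈ V ×ˢ V := fun z hz =>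
    mem_product.mpr ⟨(hW z hz).2.1, (hW z hz).2.2.1⟩
  have hsum : Z.card = ∑ p ∈ V ×ˢ V, (Z.filter fun z => (u z, v z) = p).card :=
    card_eq_sum_card_fiberwise hmapsuv
  obtain ⟨τ, hτ⟩ : ∃ τ : ℕ, τ = ∑ m ∈ B, (TS x m).card := ⟨_, rfl⟩
  have hZK : Z.card ≤ K * τ := by
    rw [hsum, hK, sum_mul]
    apply sum_le_sum
    intro p _
    by_cases hDp : dt p.1 p.2 = 0
    · have : (Z.filter fun z => (u z, v z) = p) = ∅ := by
        rw [filter_eq_empty_iff]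
        intro z hz hzp
        have h1 := (hW z hz).2.2.2.1
        rw [← hzp] at hDp
        exact h1 hDp
      rw [this]; simp
    · have := pair_count (dt p.1 p.2) hDp p.1 p.2 rfl (Z.filter fun z => (u z, v z) = p) W n x B
        (fun z hz => (hW z (mem_filter.mp hz).1).1) ?_ ?_ ?_
        (fun z hz => (hW z (mem_filter.mp hz).1).2.2.2.2.2.2.2)
      · refine this.trans (le_of_eq ?_)
        rw [hτ]; ring
      · intro z hz
        obtain ⟨hz1, rfl⟩ := mem_filter.mp hz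
        exact (hW z hz1).2.2.2.2.1
      · intro z hz
        obtain ⟨hz1, rfl⟩ := mem_filter.mp hz
        exact (hW z hz1).2.2.2.2.2.1
      · intro z hz
        obtain ⟨hz1, rfl⟩ := mem_filter.mp hz
        exact (hW z hz1).2.2.2.2.2.2.1
  have hτ' : ∑ m ∈ B, (Pool.Agent.GaussMR.tx x m : ℝ) = τ := by
    rw [hτ]; push_cast
    exact sum_congr rfl fun m _ => by rw [tx_eq]
  rw [hτ']
  have h1 : (N : ℝ) ^ 2 / 2 ≤ K * τ := by
    refine hPc.trans ?_
    rw [← hZc]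
    exact_mod_cast hZK
  have h2 : x / M ≤ 8 * (K * τ) := by linarith
  have h3 : x ≤ 8 * M * (K + 1) * τ := by
    rw [div_le_iff₀ hM'] at h2
    have : (0 : ℝ) ≤ τ := Nat.cast_nonneg _
    nlinarith
  rw [div_mul_eq_mul_div, div_le_iff₀ (by positivity)]
  linarith

end Pool.Agent.OmT1
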