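import Pool.Agent.Lib_MP_f1a94e_t1.Core

/-!
# MP_f1a94e_nt: many bases with a good pair give many factorisations

The last step of `core` as a separate statement: `Z` is any finite set of vectors.
-/

set_option autoImplicit false

namespace Pool.Agent.OmT1

open Finset ArithmeticFunction Pool.Agent.OmAP

/-- If every `z ∈ Z` has a unimodular partner `W z` and a pair `u z, v z` of a fixed finite set `V` with
`dp (lin u z w) (lin v z w) = dt u v * n z`, both transported vectors of norm at most `x` and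
`|n z| ∈ B`, then `#Z ≤ K ∑_{m ∈ B} tx x m` with `K` depending only on `V`. -/
theorem many (V : Finset (ℤ × ℤ)) : ∃ K : ℕ, ∀ (x : ℝ) (B : Finset ℕ) (Z : Finset (ℤ × ℤ))
    (W u v : ℤ × ℤ → ℤ × ℤ) (n : ℤ × ℤ → ℤ),
    (∀ z ∈ Z, dt z (W z) = 1 ∧ u z ∈ V ∧ v z ∈ V ∧ dt (u z) (v z) ≠ 0 ∧
      dp (lin (u z) z (W z)) (lin (v z) z (W z)) = dt (u z) (v z) * n z ∧
      (nm (lin (u z) z (W z)) : ℝ) ≤ x ∧ (nm (lin (v z) z (W z)) : ℝ) ≤ x ∧
      (n z).natAbs ∈ B) →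
    (Z.card : ℝ) ≤ K * ∑ m ∈ B, (Pool.Agent.GaussMR.tx x m : ℝ) := by
  classical
  refine ⟨∑ p ∈ V ×ˢ V, (4 * (dt p.1 p.2).natAbs + 1) ^ 2 *
    ((dt p.1 p.2 ^ 2).natAbs.divisors.card * 2), ?_⟩
  intro x B Z W u v n hW
  have hmapsuv : ∀ z ∈ Z, (u z, v z) ∈ V ×ˢ V := fun z hz =>
    mem_product.mpr ⟨(hW z hz).2.1, (hW z hz).2.2.1⟩
  have hsum : Z.card = ∑ p ∈ V ×ˢ V, (Z.filter fun z => (u z, v z) = p).card :=
    card_eq_sum_card_fiberwise hmapsuv
  obtain ⟨τ, hτ⟩ : ∃ τ : ℕ, τ = ∑ m ∈ B, (TS x m).card := ⟨_, rfl⟩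
  have hτ' : ∑ m ∈ B, (Pool.Agent.GaussMR.tx x m : ℝ) = τ := by
    rw [hτ]; push_cast
    exact sum_congr rfl fun m _ => by rw [tx_eq]
  rw [hτ']
  have hZK : Z.card ≤ (∑ p ∈ V ×ˢ V, (4 * (dt p.1 p.2).natAbs + 1) ^ 2 *
      ((dt p.1 p.2 ^ 2).natAbs.divisors.card * 2)) * τ := by
    rw [hsum, sum_mul]
    apply sum_le_sum
    intro p _
    by_cases hDp : dt p.1 p.2 = 0
    · have : (Z.filter fun z => (u z, v z) = p) = ∅ := by
        rw [filter_eq_empty_iff]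
        intro z hz hzp
        have h1 := (hW z hz).2.2.2.1
        rw [← hzp] at hDp
        exact h1 hDp
      rw [this]; simp
    · have := pair_count (dt p.1 p.2) hDp p.1 p.2 rfl (Z.filter fun z => (u z, v z) = p) W n x B
        (fun z hz => (hW z (mem_filter.mp hz).1).1) ?_ ?_ ?_
        (fun z hz => (hW z (mem_filter.mp hz).1).2.2.2.2.2.2.2)
      · refine this.trans (le_of_eq ?_)
        rw [hτ]; ring
      · intro z hz
        obtain ⟨hz1, rfl⟩ := mem_filter.mp hz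
        exact (hW z hz1).2.2.2.2.1
      · intro z hz
        obtain ⟨hz1, rfl⟩ := mem_filter.mp hz
        exact (hW z hz1).2.2.2.2.2.1
      · intro z hz
        obtain ⟨hz1, rfl⟩ := mem_filter.mp hz
        exact (hW z hz1).2.2.2.2.2.2.1
  exact_mod_cast hZK

end Pool.Agent.OmT1
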